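import Pool.Agent.Helper15.FST.St
import Pool.Agent.Helper48.DGR.DgrW
import Pool.Agent.Helper71.VIS.Trk
import Pool.Agent.Helper61.SEL.Exo

/-! # ROW_EXH of FIRST

`degO` : the degree of the K-hull is bounded in terms of the dimension and of `g`, uniformly in all windows `0 ≤ c < 1`
(helper48's `dgr_winO` in the notation of `MX`); `row_exh`. -/

set_option autoImplicit false
set_option linter.unusedSectionVars false

namespace Pool.Agent.Helper61.FST

open Finset Filter Topology Matrix Pool.Agent.Helper69.RK Pool.Agent.Helper31.EC Pool.Agent.Helper31.EC.Sp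
open Pool.Agent.Helper40.EL Pool.Agent.Helper89.LX Pool.Agent.Helper3.LF Pool.Agent.Helper84.MT
open Pool.Agent.Helper89.RAK (KC Lit)
open Pool.Agent.Helper36.AM (STu)
open Pool.Agent.Helper29.MX
open Pool.Agent.Helper15.FST
open Pool.Agent.Helper71.VIS (volKO_trn)

noncomputable section

/-- **THE DEGREE OF THE K-HULL, all windows** `0 ≤ c < 1`, literal resolutions -/
theorem degO {M : ℕ} (hst : ∀ m, m < M + 1 → STu m) (g : ℕ) : ∃ D₁ : ℕ, 1 ≤ D₁ ∧ ∀ D, D₁ ≤ D → ∀ (ι : Type) [Finite ι]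
    (S : Sp) (s : MSys S (M + 1) (lin g) ι) (R : Rsl S) (_ : Lit R s.Q) (c : ℝ) (_ : 0 ≤ c) (_ : c < 1),
    volK s R D c = volKO s R c := by
  obtain ⟨D₁, h1, h2⟩ := Pool.Agent.Helper48.DGR.dgr_winO hst g
  refine ⟨D₁, h1, fun D hD ι _ S s R hlit c h0 h3 => le_antisymm ?_ (volKO_le_volK s R D c)⟩
  rw [volK_eq, volKO_eq]
  exact h2 D hD ι S s R hlit c h0 h3

/-- the finest resolution is literal -/
theorem lit_bot {S : Sp} {M : ℕ} (Q : S.VV M) : Lit (rbot S) Q := fun k ω ω' h => by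
  have e : ω = ω' := h
  rw [e]

/-- the degree for type-labels, dimension `N ≥ 1` -/
theorem degB {N : ℕ} (hN : 1 ≤ N) (hst : ∀ m, m < N → STu m) (g : ℕ) : ∃ D₁ : ℕ, 1 ≤ D₁ ∧ ∀ D, D₁ ≤ D →
    ∀ (ι : Type) [Finite ι] (S : Sp) (s : MSys S N (lin g) ι) (c : ℝ) (_ : 0 ≤ c) (_ : c < 1),
    volK s (rbot S) D c = volKO s (rbot S) c := by
  obtain ⟨M, rfl⟩ : ∃ M, N = M + 1 := ⟨N - 1, by omega⟩
  obtain ⟨D₁, h1, h2⟩ := degO hst g
  exact ⟨D₁, h1, fun D hD ι _ S s c h0 h3 => h2 D hD ι S s _ (lit_bot s.Q) c h0 h3⟩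

/-- **[EXH]** -/
theorem row_exh : ROW_EXH := by
  intro N g r hg hN hst
  obtain ⟨d, rfl⟩ : ∃ d, N = d + 1 := ⟨N - 1, by omega⟩
  obtain ⟨D₁, h1, h2⟩ := degO hst g
  obtain ⟨D₂, h3⟩ := hst d (Nat.lt_succ_self d) g
  refine ⟨max D₁ D₂, h1.trans (le_max_left _ _), ?_⟩
  intro D hD S s e c δ he he1 hδ hc hce hu
  have hD1 : 1 ≤ D := h1.trans ((le_max_left _ _).trans hD)
  have hST : ∀ r, STm D d (lin g) (Fin r) := fun r => h3 D ((le_max_right _ _).trans hD) r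
  have hdeg : volK s (rbot S) D c ≤ volKO s (rbot S) c :=
    (h2 D ((le_max_left _ _).trans hD) (Fin r) S s (rbot S) (lit_bot s.Q) c hc (hce.trans_lt he1)).le
  have hu1 : UL s 1 c ≤ (d + 1 : ℕ) - volKO s (rbot S) c := by
    have h5 := volKO_trn s one_pos le_rfl (rbot S) (c / 1)
    have e1 : (1 : ℝ) * (c / 1) = c := by rw [div_one, one_mul]
    rw [e1] at h5
    unfold UL
    rw [dif_pos ⟨one_pos, le_rfl⟩]
    exact h5
  have hu2 : e * ((d + 1 : ℕ) - volKO (s.trn e he he1.le) (rbot S) (c / e)) < (d + 1 : ℕ) - volKO s (rbot S) c := by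
    refine lt_of_lt_of_le ?_ hu1
    have h6 : UL s e c = e * ((d + 1 : ℕ) - volKO (s.trn e he he1.le) (rbot (S.chg S.tr e he)) (c / e)) := by
      unfold UL
      rw [dif_pos ⟨he, he1.le⟩]
    rw [h6] at hu
    exact hu
  obtain ⟨A, hA, x, hx, h7⟩ := Pool.Agent.Helper61.SEL.exhO_ev hST (lit_bot s.Q) hD1 hc (hce.trans_lt he1) hdeg he he1.le
    hδ hu2
  refine ⟨A, hA, x, hx.1, fun l hl => (h7 l ?_).le⟩
  exact (tlb_iff (s.im (Pj.id S) A hA) c l).2 hl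

end

end Pool.Agent.Helper61.FST
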